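import Mathlib
import Pool.Agent.Helper59.RF.FinS

/-!
# Thin random perturbations of e and of pi

Let `A` be a random set of natural numbers, the events `k ∈ A` being independent, whose
probabilities `p k` satisfy `min (p k) (1 - p k) ≥ k^(-1+δ)` for all large `k`, and let
`X = b + ∑_{k ∈ A} u k`, where `|u k| = r^k / (k!)^κ` for all large `k` (for instance `b = e` or
`b = π`, and `u k = 1 / k!`).  For every real polynomial `P`, all integers `a 0 < a 1 < ...` and all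
reals `c i`, almost surely, if `X > 1` and `P(X) ≠ 0`, the sequence `P(X) X^(a i) + c i` is
equidistributed modulo one with discrepancy `O(n^(-1/2+ε))`.
-/

namespace Pool.Agent.Results.MP_9056e9_nt.KoksmaFactorial

open Finset MeasureTheory ProbabilityTheory Polynomial

theorem result (r κ : ℝ) (hr : 0 < r) (hκ : 0 ≤ κ) (hrκ : 0 < κ ∨ r < 1) (u : ℕ → ℝ)
    (hu : ∀ᶠ k : ℕ in Filter.atTop, |u k| = r ^ k / (k.factorial : ℝ) ^ κ)
    {Ω : Type*} [MeasurableSpace Ω] (μ : Measure Ω) [IsProbabilityMeasure μ]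
    (A : Ω → Set ℕ) (hA : ∀ k : ℕ, MeasurableSet {ω | k ∈ A ω})
    (hind : iIndepSet (fun k : ℕ => {ω | k ∈ A ω}) μ) (δ : ℝ) (hδ : 0 < δ)
    (hp : ∀ᶠ k : ℕ in Filter.atTop, (k : ℝ) ^ (-1 + δ) ≤ μ.real {ω | k ∈ A ω} ∧
      μ.real {ω | k ∈ A ω} ≤ 1 - (k : ℝ) ^ (-1 + δ))
    (b : ℝ) (P : ℝ[X]) (a : ℕ → ℕ) (ha : StrictMono a) (c : ℕ → ℝ) :
    ∀ᵐ ω ∂μ, ∀ x : ℝ, x = b + ∑' k : ℕ, (A ω).indicator u k →
      1 < x → P.eval x ≠ 0 → ∀ ε : ℝ, 0 < ε → ∃ C : ℝ, ∀ n : ℕ, 1 ≤ n → ∀ α β : ℝ,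
        0 ≤ α → α < β → β ≤ 1 →
        |(((range n).filter (fun i => α ≤ Int.fract (P.eval x * x ^ a i + c i) ∧
            Int.fract (P.eval x * x ^ a i + c i) < β)).card : ℝ) - (β - α) * n| ≤
          C * (n : ℝ) ^ (1 / 2 + ε) := by
  have h := Pool.Agent.Helper59.RF.mainS r κ hr hκ hrκ u (Filter.eventually_atTop.mp hu) μ A hA hind
    δ hδ (Filter.eventually_atTop.mp hp) b P a ha c
  filter_upwards [h] with ω hω x hx h1 hP
  subst hx
  exact hω h1 hP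

end Pool.Agent.Results.MP_9056e9_nt.KoksmaFactorial
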